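import Mathlib
import Pool.Agent.Lib.MP_f4876d_ag.FieldDefs

set_option autoImplicit false

/-!
# Zero-cycles over an algebraically closed field `k ⊆ ℂ` (definitions)

`T : Chow V` is the theory of Chow groups (with rational coefficients) of the smooth projective
varieties over `k`, for instance `k = ℚ̄`, seen through correspondences; here the objects of `V` are the
*connected* smooth projective varieties.  `H : Weil ℚ T` is their Betti cohomology `H^*(X(ℂ), ℚ)`.
`Base` describes the smooth projective families over an open subset of the projective line,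
`Pencil` the pencils of curves on a surface, and `Geometry` collects facts about fundamental groups,
hyperplane sections and pencils.  All the properties that are listed are textbook theorems.
-/

namespace Pool.Agent.Lib.MP_32dfd1_ag.Zero

open CategoryTheory Pool.Agent.Lib.MP_f4876d_ag.Field

universe u v w

variable {V : Type u} [Category.{v} V] [Preadditive V] [Linear ℚ V] {T : Chow V}

/-- `CH_0(X)`, zero-cycles with rational coefficients modulo rational equivalence. -/
def CH0 (T : Chow V) (X : V) : Submodule ℚ (T.pt ⟶ X) := T.CH X (T.dim X)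

/-- The homologically trivial zero-cycle `z` is in the Albanese kernel of `X`: for every `Y` and every
divisor `f` on `X × Y` the divisor class `z ≫ f = f_*(z)` on `Y` is zero. -/
def AlbTrivial (H : Weil ℚ T) {X : V} (z : T.pt ⟶ X) : Prop :=
  H.Trivial z ∧ ∀ Y : V, ∀ f ∈ T.deg X Y (1 - T.dim X), z ≫ f = 0

/-- The map `f^* : H^*(Y) → H^*(X)` defined by a correspondence `f` from `X` to `Y`. -/
def pull (H : Weil ℚ T) {X Y : V} (f : X ⟶ Y) : H.coh.obj Y →ₗ[ℚ] H.coh.obj X :=
  (H.coh.map (T.tr f)).hom

/-- The map `f^* : H^1(Y) → H^1(X)` is surjective. -/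
def Onto (H : Weil ℚ T) {X Y : V} (f : X ⟶ Y) : Prop :=
  ∀ y ∈ H.gr X 1, ∃ x ∈ H.gr Y 1, pull H f x = y

/-- The map `f^* g^* : H^1(Z) → H^1(X)` is zero. -/
def Null (H : Weil ℚ T) {X Y Z : V} (f : X ⟶ Y) (g : Y ⟶ Z) : Prop :=
  ∀ s ∈ H.gr Z 1, pull H f (pull H g s) = 0

/-- `c` is a zero-cycle on `X` that is homologically trivial, i.e. of degree zero. -/
def Cyc (H : Weil ℚ T) {X : V} (c : T.pt ⟶ X) : Prop := c ∈ CH0 T X ∧ H.Trivial c

/-- Every zero-cycle `c` of degree zero on `Y` whose image under `g` is in the Albanese kernel of `Z` is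
the image under `f` of a zero-cycle of degree zero on `X`. -/
def Lifts (H : Weil ℚ T) {X Y Z : V} (f : X ⟶ Y) (g : Y ⟶ Z) : Prop :=
  ∀ c, Cyc H c → AlbTrivial H (c ≫ g) → ∃ a, Cyc H a ∧ a ≫ f = c

/-- The subspace `N` is stable under the representation `ρ`. -/
def Stable {π M : Type} [Group π] [AddCommGroup M] [Module ℚ M] (ρ : Representation ℚ π M)
    (N : Submodule ℚ M) : Prop :=
  ∀ g, ∀ x ∈ N, ρ g x ∈ N

/-- The representation `ρ` is semisimple on the subspace `W`: every stable subspace of `W` has a
stable complement. -/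
def SemisimpleOn {π M : Type} [Group π] [AddCommGroup M] [Module ℚ M] (ρ : Representation ℚ π M)
    (W : Submodule ℚ M) : Prop :=
  ∀ N ≤ W, Stable ρ N → ∃ N' ≤ W, Stable ρ N' ∧ N ⊓ N' = ⊥ ∧ N ⊔ N' = W

/-- The smooth projective families with connected fibres over a nonempty open subset `U` of the
projective line, with a base point `0 ∈ U`. -/
structure Base (H : Weil ℚ T) where
  /-- the families -/
  Fam : Type w
  /-- the fibre over the base point -/
  fib : Fam → V
  /-- correspondences between the fibres of two families over the base point which are the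
  restrictions of relative correspondences (cycles on the fibre product over `U`) -/
  rel : (F G : Fam) → Submodule ℚ (fib F ⟶ fib G)
  /-- the same for a family `F` and the constant family `S × U` -/
  relC : (F : Fam) → (S : V) → Submodule ℚ (fib F ⟶ S)
  rel_tr : ∀ {F G : Fam} {f : fib F ⟶ fib G}, f ∈ rel F G → T.tr f ∈ rel G F
  rel_relC : ∀ {F G : Fam} {S : V} {f : fib F ⟶ fib G} {g : fib G ⟶ S}, f ∈ rel F G →
    g ∈ relC G S → f ≫ g ∈ relC F S
  /-- the fundamental group of `U(ℂ)` -/
  π : Type
  [group : Group π]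
  /-- the monodromy representation on the cohomology of the fibre -/
  mon : (F : Fam) → Representation ℚ π (H.coh.obj (fib F))
  mon_gr : ∀ (F : Fam) (j : ℤ), Stable (mon F) (H.gr (fib F) j)
  /-- relative correspondences commute with the monodromy -/
  mon_rel : ∀ {F G : Fam} {f : fib F ⟶ fib G}, f ∈ rel F G → ∀ (g : π) (x : H.coh.obj (fib F)),
    (H.coh.map f).hom (mon F g x) = mon G g ((H.coh.map f).hom x)
  /-- the monodromy representation on `H^1` of the fibre is semisimple (Deligne) -/
  semisimple : ∀ F : Fam, SemisimpleOn (mon F) (H.gr (fib F) 1)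
  /-- the family has a section over `U` -/
  Section : Fam → Prop

attribute [instance] Base.group

/-- The cohomology class `x` of the fibre is invariant under the monodromy. -/
def Base.Inv {H : Weil ℚ T} (B : Base.{u, v, w} H) {F : B.Fam} (x : H.coh.obj (B.fib F)) : Prop :=
  ∀ g, B.mon F g x = x

/-- `H^1` of the fibre. -/
def Base.H1 {H : Weil ℚ T} (B : Base.{u, v, w} H) (F : B.Fam) :
    Submodule ℚ (H.coh.obj (B.fib F)) :=
  H.gr (B.fib F) 1

/-- A smooth projective variety `Y` which contains the total space of the family `F` as an open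
subset. -/
structure Compactification {H : Weil ℚ T} (B : Base.{u, v, w} H) (F : B.Fam) where
  Y : V
  dim_Y : T.dim Y = T.dim (B.fib F) + 1
  /-- push-forward from the fibre over the base point -/
  i : B.fib F ⟶ Y
  i_mem : i ∈ T.deg (B.fib F) Y 1
  /-- every relative correspondence from `F` to `S × U` is the restriction of a correspondence from
  `Y` to `S`, its closure -/
  closure : ∀ S : V, ∀ f ∈ B.relC F S, ∃ Γ : Y ⟶ S, i ≫ Γ = f
  /-- the classes in the image of `H^1(Y)` are invariant under the monodromy -/
  invariant : ∀ y ∈ H.gr Y 1, B.Inv (pull H i y)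
  /-- the restriction from `H^1(Y)` to `H^1` of the fibre is injective, since its kernel would
  consist of classes of weight one from `H^1(U)`, and `U` is an open subset of the projective line -/
  injective : ∀ y ∈ H.gr Y 1, pull H i y = 0 → y = 0

/-- A pencil of smooth ample curves `C_t`, `t ∈ U`, on a surface `S`; `C` is the family of curves and `j`
is the push-forward from the curve `C_0` to `S`. -/
structure Pencil {H : Weil ℚ T} (B : Base.{u, v, w} H) {C : B.Fam} {S : V} (j : B.fib C ⟶ S) :
    Prop where
  dim_C : T.dim (B.fib C) = 1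
  j_mem : j ∈ T.deg (B.fib C) S 1
  j_rel : j ∈ B.relC C S
  /-- theorem on invariant cycles (Deligne): the invariant classes in `H^1(C_0)` are the
  restrictions of the classes in `H^1(S)` -/
  invariant : ∀ x ∈ B.H1 C, B.Inv x → ∃ s ∈ H.gr S 1, pull H j s = x

/-- The family of the abelian varieties `K_t = ker(Pic^0(C_t) → Alb(S))`, for a pencil of curves `C_t` on
the surface `S`. -/
structure Kernel {H : Weil ℚ T} (B : Base.{u, v, w} H) {C : B.Fam} {S : V} (j : B.fib C ⟶ S) where
  K : B.Fam
  /-- the zero section -/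
  section_K : B.Section K
  /-- the tautological family of divisor classes on the curves `C_t`, a divisor on `K ×_U C`: a point
  `x` of `K_t` is sent to the divisor class `x` of degree zero on `C_t` -/
  κ : B.fib K ⟶ B.fib C
  κ_mem : κ ∈ T.deg (B.fib K) (B.fib C) (1 - T.dim (B.fib K))
  κ_rel : κ ∈ B.rel K C
  /-- `H^1(K_0)` is the quotient of `H^1(Pic^0(C_0)) = H^1(C_0)` by `H^1(Alb(S)) = H^1(S)` -/
  onto : Onto H κ
  null : Null H κ j
  /-- if the image in `S` of a zero-cycle `c` of degree zero on `C_0` is in the Albanese kernel of `S`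
  then a multiple of the class of `c` is a point `x` of `K_0`, so `c` is the image of a rational
  multiple of the zero-cycle `[x] - [0]` on `K_0` -/
  lifts : Lifts H κ j

/-- Facts from the geometry of smooth projective varieties. -/
structure Geometry (H : Weil ℚ T) where
  /-- `X(ℂ)` is simply connected -/
  SC : V → Prop
  /-- the fundamental group of `X(ℂ)` is commutative -/
  Ab : V → Prop
  sc_gr : ∀ X, SC X → H.gr X 1 = ⊥
  /-- If the fundamental group of `Y` is commutative and `H^1(Y) = 0` then it is finite, since it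
  is finitely generated, so the universal covering `X` of `Y` is a smooth projective variety. -/
  cover : ∀ Y, Ab Y → H.gr Y 1 = ⊥ → ∃ X, SC X ∧ T.dim X = T.dim Y ∧ ∃ p ∈ T.deg X Y 0,
    ∀ z ∈ CH0 T Y, H.Trivial z → ∃ w ∈ CH0 T X, H.Trivial w ∧ w ≫ p = z
  /-- Lefschetz: a zero-cycle on a simply connected variety is supported on a smooth complete
  intersection surface, which is simply connected (for curves and points `X` take `X × ℙ^n`). -/
  lefschetz_sc : ∀ X, SC X → ∀ z ∈ CH0 T X, H.Trivial z → ∃ S, SC S ∧ T.dim S = 2 ∧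
    ∃ i ∈ T.deg S X (T.dim X - 2), ∃ w ∈ CH0 T S, H.Trivial w ∧ w ≫ i = z
  /-- Lefschetz: a zero-cycle on `X` is supported on a smooth complete intersection surface, which
  has the same Albanese variety as `X` (for curves and points `X` take `X × ℙ^n`). -/
  lefschetz_alb : ∀ X, ∀ z ∈ CH0 T X, AlbTrivial H z → ∃ S, T.dim S = 2 ∧
    ∃ i ∈ T.deg S X (T.dim X - 2), ∃ w ∈ CH0 T S, AlbTrivial H w ∧ w ≫ i = z
  /-- the Albanese variety of `X` is zero if `H^1(X) = 0` -/
  alb : ∀ X, H.gr X 1 = ⊥ → ∀ z ∈ CH0 T X, H.Trivial z → AlbTrivial H z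
  /-- Bertini: a zero-cycle of degree zero on a surface `S` is supported on a smooth very ample
  curve `C_0`, which is a member of a pencil. -/
  pencil : ∀ S, T.dim S = 2 → ∀ w ∈ CH0 T S, H.Trivial w → ∃ (B : Base.{u, v, w} H) (C : B.Fam)
    (j : B.fib C ⟶ S) (K : Kernel B j), Pencil B j ∧ Ab (B.fib K.K) ∧
      (∃ c, Cyc H c ∧ c ≫ j = w) ∧ ∀ F : B.Fam, ∃ c : Compactification B F,
        -- if `F` has a section then the fundamental group of the fibre maps onto that of `Y`
        (B.Section F → Ab (B.fib F) → Ab c.Y)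

/-- Q1 for zero-cycles: if `H^(2m-1)(X) = 0`, `m = dim X`, then homologically trivial zero-cycles
on `X` are zero in `CH^m(X) ⊗ ℚ`. -/
def Q1 (H : Weil ℚ T) : Prop :=
  ∀ X, H.gr X (2 * (T.dim X : ℤ) - 1) = ⊥ → ∀ z ∈ CH0 T X, H.Trivial z → z = 0

/-- Q1 for `m = 2` and simply connected surfaces: zero-cycles of degree zero on simply connected
surfaces are zero in `CH^2(S) ⊗ ℚ`. -/
def Q1SimplyConnectedSurfaces {H : Weil ℚ T} (G : Geometry.{u, v, w} H) : Prop :=
  ∀ S, G.SC S → T.dim S = 2 → ∀ z ∈ CH0 T S, H.Trivial z → z = 0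

/-- The conjecture of Beilinson for zero-cycles: the Albanese kernels of all varieties are torsion. -/
def AlbaneseKernelsTorsion (H : Weil ℚ T) : Prop :=
  ∀ X, ∀ z ∈ CH0 T X, AlbTrivial H z → z = 0

end Pool.Agent.Lib.MP_32dfd1_ag.Zero
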