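import Pool.Agent.Lib.MP_32dfd1_ag.Zero.Defs
import Pool.Agent.Lib.MP_f4876d_ag.FieldBasic

set_option autoImplicit false

/-!
# The proof
-/

namespace Pool.Agent.Lib.MP_32dfd1_ag.Zero

open CategoryTheory Pool.Agent.Lib.MP_f4876d_ag.Field

universe u v w

variable {V : Type u} [Category.{v} V] [Preadditive V] [Linear ℚ V] {T : Chow V}
variable {H : Weil ℚ T}

theorem gr_bot_iff (X : V) (j : ℤ) : H.gr X j = ⊥ ↔ H.Kills (𝟙 X) j := by
  constructor
  · intro h x hx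
    rw [h, Submodule.mem_bot] at hx
    rw [hx, map_zero]
  · intro h
    rw [eq_bot_iff]
    intro x hx
    have h1 : H.act (𝟙 X) x = 0 := h x hx
    rw [H.act_id] at h1
    exact (Submodule.mem_bot ℚ).2 h1

/-- Poincare duality: `H^j(X)` is zero if `H^(2 dim X - j)(X)` is zero. -/
theorem gr_dual {X : V} {j : ℤ} (h : H.gr X j = ⊥) : H.gr X (2 * (T.dim X : ℤ) - j) = ⊥ := by
  rw [gr_bot_iff] at h ⊢
  have h1 := H.duality (T.id_mem X) h
  rw [tr_id] at h1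
  have e : 2 * (T.dim X : ℤ) - (j + 2 * 0) = 2 * (T.dim X : ℤ) - j := by ring
  rwa [e] at h1

theorem pull_mem {X Y : V} {r j j' : ℤ} {f : X ⟶ Y} (hf : f ∈ T.deg X Y r) {y : H.coh.obj Y}
    (hy : y ∈ H.gr Y j) (h : j + 2 * (r + T.dim X - T.dim Y) = j') : pull H f y ∈ H.gr X j' :=
  H.act_mem (T.tr_mem hf) hy h

/-- The classes in `H^1(K_0)` that are invariant under the monodromy are zero. -/
theorem invariant_zero {B : Base.{u, v, w} H} {C : B.Fam} {S : V} {j : B.fib C ⟶ S}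
    (P : Pencil B j) (K : Kernel B j)
    {y : H.coh.obj (B.fib K.K)} (hy : y ∈ H.gr (B.fib K.K) 1) (hinv : ∀ g, B.mon K.K g y = y) :
    y = 0 := by
  have hmon : ∀ g x, pull H K.κ (B.mon C g x) = B.mon K.K g (pull H K.κ x) := fun g x =>
    B.mon_rel (B.rel_tr K.κ_rel) g x
  obtain ⟨x, hx, hxy⟩ := K.onto y hy
  let N : Submodule ℚ (H.coh.obj (B.fib C)) := H.gr (B.fib C) 1 ⊓ LinearMap.ker (pull H K.κ)
  obtain ⟨N', hN'1, hN', hinf, hsup⟩ := B.semisimple C N inf_le_left (by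
    rintro g z ⟨hz1, hz2⟩
    refine ⟨B.mon_gr _ _ g z hz1, ?_⟩
    have hz3 : pull H K.κ z = 0 := hz2
    change pull H K.κ (B.mon C g z) = 0
    rw [hmon, hz3, map_zero])
  have hx : x ∈ H.gr (B.fib C) 1 := hx
  rw [← hsup] at hx
  obtain ⟨n, hn, n', hn', rfl⟩ := Submodule.mem_sup.1 hx
  have hn0 : pull H K.κ n = 0 := hn.2
  have hy' : pull H K.κ n' = y := by rw [← hxy, map_add, hn0, zero_add]
  have hinv' : ∀ g, B.mon C g n' = n' := by
    intro g
    have h1 : B.mon C g n' - n' ∈ N ⊓ N' := by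
      refine ⟨⟨Submodule.sub_mem _ (B.mon_gr _ _ g _ (hN'1 hn')) (hN'1 hn'), ?_⟩,
        Submodule.sub_mem _ (hN' g _ hn') hn'⟩
      change pull H K.κ (B.mon C g n' - n') = 0
      rw [map_sub, hmon, hy', hinv, sub_self]
    rw [hinf, Submodule.mem_bot] at h1
    exact sub_eq_zero.1 h1
  obtain ⟨s, hs, hsn⟩ := P.invariant n' (hN'1 hn') hinv'
  rw [← hy', ← hsn]
  exact K.null s hs

/-- A smooth compactification `Y` of the family of the `K_t` has `H^1(Y) = 0`. -/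
theorem compactification_gr {B : Base.{u, v, w} H} {C : B.Fam} {S : V} {j : B.fib C ⟶ S}
    (P : Pencil B j) (K : Kernel B j) (c : Compactification B K.K) : H.gr c.Y 1 = ⊥ := by
  rw [eq_bot_iff]
  intro y hy
  refine (Submodule.mem_bot ℚ).2 (c.injective y hy ?_)
  refine invariant_zero P K (pull_mem c.i_mem hy ?_) (c.invariant y hy)
  rw [c.dim_Y]
  push_cast
  ring

theorem main {G : Geometry.{u, v, w} H} (h : Q1SimplyConnectedSurfaces G) :
    AlbaneseKernelsTorsion H := by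
  intro X z hz hz0
  obtain ⟨S, hS, i, -, w, hw, hw0, rfl⟩ := G.lefschetz_alb X z hz hz0
  suffices hwz : w = 0 by rw [hwz, Limits.zero_comp]
  obtain ⟨B, C, j, K, P, hab, ⟨c, hc, rfl⟩, hF⟩ := G.pencil S hS w hw hw0.1
  obtain ⟨Y, hY⟩ := hF K.K
  obtain ⟨a, ⟨ha, ha0⟩, rfl⟩ := K.lifts c hc hw0
  obtain ⟨Γ, hΓ⟩ := Y.closure S (K.κ ≫ j) (B.rel_relC K.κ_rel P.j_rel)
  rw [Category.assoc, ← hΓ, ← Category.assoc]
  obtain ⟨X', hX', -, p, -, hp⟩ := G.cover Y.Y (hY K.section_K hab) (compactification_gr P K Y)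
  obtain ⟨b, hb, hb0, hbp⟩ := hp (a ≫ Y.i) (CH_comp ha Y.i_mem (by rw [Y.dim_Y]; push_cast; ring))
    (Weil.Trivial.comp_left _ ha0)
  obtain ⟨S', hS', hS'2, i', -, e, he, he0, rfl⟩ := G.lefschetz_sc X' hX' b hb hb0
  rw [← hbp, h S' hS' hS'2 e he he0, Limits.zero_comp, Limits.zero_comp, Limits.zero_comp]

end Pool.Agent.Lib.MP_32dfd1_ag.Zero
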